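import Pool.Agent.Helper34.CAR.GoalsB

/-!
# Packet CAR-SYS1: one step of the recursion
-/

open scoped ComplexOrder ZeroAtInfty

namespace Pool.Agent.Helper19.CAR

open Pool.Agent.Helper34.CAR

variable {S C B : Type} [Fintype S] [DecidableEq S] [Fintype C] [DecidableEq C] [CStarAlgebra B]

/-- Entrywise application of `K` as a *-homomorphism. -/
noncomputable def kapH (K : B →⋆ₐ[ℂ] Mt C B) : Mt S B →⋆ₐ[ℂ] Mt (S × C) B where
  toFun a := kapF K a
  map_one' := by
    ext x y
    unfold kapF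
    rw [Mt.of_apply, Mt.one_apply, Mt.one_apply]
    by_cases h1 : x.1 = y.1
    · rw [if_pos h1, map_one, Mt.one_apply]
      by_cases h2 : x.2 = y.2
      · rw [if_pos h2, if_pos (Prod.ext h1 h2)]
      · rw [if_neg h2, if_neg fun h => h2 (by rw [h])]
    · rw [if_neg h1, map_zero, Mt.zero_apply, if_neg fun h => h1 (by rw [h])]
  map_mul' a b := by
    ext x y
    unfold kapF
    rw [Mt.of_apply, Mt.mul_apply, Mt.mul_apply, map_sum, Mt.sum_apply]
    rw [Fintype.sum_prod_type]
    refine Finset.sum_congr rfl fun k _ => ?_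
    rw [map_mul, Mt.mul_apply]
    refine Finset.sum_congr rfl fun c _ => ?_
    simp only [Mt.of_apply]
  map_zero' := by
    ext x y
    unfold kapF
    rw [Mt.of_apply, Mt.zero_apply, map_zero, Mt.zero_apply, Mt.zero_apply]
  map_add' a b := by
    ext x y
    unfold kapF
    rw [Mt.of_apply, Mt.add_apply, map_add, Mt.add_apply, Mt.add_apply, Mt.of_apply, Mt.of_apply]
  commutes' c := by
    ext x y
    unfold kapF
    rw [Mt.of_apply, Mt.algebraMap_apply, Mt.algebraMap_apply]
    by_cases h1 : x.1 = y.1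
    · rw [if_pos h1, AlgHomClass.commutes, Mt.algebraMap_apply]
      by_cases h2 : x.2 = y.2
      · rw [if_pos h2, if_pos (Prod.ext h1 h2)]
      · rw [if_neg h2, if_neg fun h => h2 (by rw [h])]
    · rw [if_neg h1, map_zero, Mt.zero_apply, if_neg fun h => h1 (by rw [h])]
  map_star' a := by
    ext x y
    unfold kapF
    rw [Mt.of_apply, Mt.star_apply, map_star, Mt.star_apply, Mt.star_apply, Mt.of_apply]

theorem kapH_apply (K : B →⋆ₐ[ℂ] Mt C B) (a : Mt S B) : kapH K a = kapF K a := rfl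

theorem kapF_apply (K : B →⋆ₐ[ℂ] Mt C B) (a : Mt S B) (x y : S × C) :
    kapF K a x y = K (a x.1 y.1) x.2 y.2 := rfl

/-- The block `Y` at the place `(s, t)`. -/
noncomputable def blkE (s t : S) (Y : Mt C B) : Mt (S × C) B :=
  Mt.of fun x y => if x.1 = s ∧ y.1 = t then Y x.2 y.2 else 0

theorem blkE_apply (s t : S) (Y : Mt C B) (x y : S × C) :
    blkE s t Y x y = if x.1 = s ∧ y.1 = t then Y x.2 y.2 else 0 := rfl

theorem star_blkE (s t : S) (Y : Mt C B) : star (blkE s t Y) = blkE t s (star Y) := by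
  ext x y
  rw [Mt.star_apply, blkE_apply, blkE_apply, Mt.star_apply]
  by_cases h1 : x.1 = t
  · by_cases h2 : y.1 = s
    · rw [if_pos ⟨h2, h1⟩, if_pos ⟨h1, h2⟩]
    · rw [if_neg fun h => h2 h.1, if_neg fun h => h2 h.2, star_zero]
  · rw [if_neg fun h => h1 h.2, if_neg fun h => h1 h.1, star_zero]

theorem blkE_mul (s t u : S) (Y Z : Mt C B) :
    blkE s t Y * blkE t u Z = blkE s u (Y * Z) := by
  ext x y
  rw [Mt.mul_apply, Fintype.sum_prod_type, Finset.sum_eq_single t, blkE_apply]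
  · by_cases h : x.1 = s ∧ y.1 = u
    · rw [if_pos h, Mt.mul_apply]
      refine Finset.sum_congr rfl fun c _ => ?_
      rw [blkE_apply, blkE_apply, if_pos ⟨h.1, rfl⟩, if_pos ⟨rfl, h.2⟩]
    · rw [if_neg h]
      refine Finset.sum_eq_zero fun c _ => ?_
      rw [blkE_apply, blkE_apply]
      by_cases h1 : x.1 = s
      · have h2 : ¬ (((t, c) : S × C).1 = t ∧ y.1 = u) := fun h2 => h ⟨h1, h2.2⟩
        rw [if_neg h2, mul_zero]
      · have h2 : ¬ (x.1 = s ∧ ((t, c) : S × C).1 = t) := fun h2 => h1 h2.1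
        rw [if_neg h2, zero_mul]
  · intro b _ hb
    refine Finset.sum_eq_zero fun c _ => ?_
    rw [blkE_apply, if_neg fun h3 => hb h3.2, zero_mul]
  · intro h
    exact absurd (Finset.mem_univ _) h

theorem norm_blkE_le (s t : S) (Y : Mt C B) : ‖blkE s t Y‖ ≤ ‖Y‖ := by
  have h1 : ‖blkE s t Y‖ * ‖blkE s t Y‖ = ‖blkE t t (star Y * Y)‖ := by
    rw [← CStarRing.norm_star_mul_self, star_blkE, blkE_mul]
  let f : Mt C B →⋆ₙₐ[ℂ] Mt (S × C) B :=
    { toFun := fun Y => blkE t t Y
      map_smul' := fun c Y => by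
        ext a b
        simp only [Mt.smul_apply, blkE_apply]
        split_ifs <;> simp
      map_zero' := by ext a b; simp [blkE_apply]
      map_add' := fun x y => by
        ext a b
        simp only [Mt.add_apply, blkE_apply]
        split_ifs <;> simp
      map_mul' := fun x y => (blkE_mul t t t x y).symm
      map_star' := fun x => (star_blkE t t x).symm }
  have h2 : ‖blkE t t (star Y * Y)‖ ≤ ‖star Y * Y‖ := NonUnitalStarAlgHom.norm_apply_le f _
  rw [CStarRing.norm_star_mul_self] at h2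
  nlinarith [norm_nonneg (blkE s t Y), norm_nonneg Y]

theorem eq_sum_blkE (Z : Mt (S × C) B) (Y : S → S → Mt C B)
    (h : ∀ x y, Z x y = Y x.1 y.1 x.2 y.2) : Z = ∑ s, ∑ t, blkE s t (Y s t) := by
  ext x y
  simp only [Mt.sum_apply, blkE_apply]
  rw [Finset.sum_eq_single x.1, Finset.sum_eq_single y.1]
  · rw [if_pos ⟨rfl, rfl⟩, h]
  · intro b _ hb
    rw [if_neg fun h3 => hb h3.2.symm]
  · intro h
    exact absurd (Finset.mem_univ _) h
  · intro b _ hb
    refine Finset.sum_eq_zero fun c _ => ?_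
    rw [if_neg fun h3 => hb h3.1.symm]
  · intro h
    exact absurd (Finset.mem_univ _) h

theorem norm_blocks (Z : Mt (S × C) B) (Y : S → S → Mt C B)
    (h : ∀ x y, Z x y = Y x.1 y.1 x.2 y.2) : ‖Z‖ ≤ ∑ s, ∑ t, ‖Y s t‖ := by
  rw [eq_sum_blkE Z Y h]
  refine (norm_sum_le _ _).trans (Finset.sum_le_sum fun i _ => ?_)
  exact (norm_sum_le _ _).trans (Finset.sum_le_sum fun j _ => norm_blkE_le i j _)

/-- `1 ⊗ w`. -/
noncomputable def oW (w : Mt C B) : Mt (S × C) B :=
  Mt.of fun x y => if x.1 = y.1 then w x.2 y.2 else 0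

theorem oW_apply (w : Mt C B) (x y : S × C) :
    (oW w : Mt (S × C) B) x y = if x.1 = y.1 then w x.2 y.2 else 0 := rfl

theorem oW_one : (oW (1 : Mt C B) : Mt (S × C) B) = 1 := by
  ext x y
  rw [oW_apply, Mt.one_apply, Mt.one_apply]
  by_cases h1 : x.1 = y.1
  · rw [if_pos h1]
    by_cases h2 : x.2 = y.2
    · rw [if_pos h2, if_pos (Prod.ext h1 h2)]
    · rw [if_neg h2, if_neg fun h => h2 (by rw [h])]
  · rw [if_neg h1, if_neg fun h => h1 (by rw [h])]

theorem oW_star (w : Mt C B) : star (oW w : Mt (S × C) B) = oW (star w) := by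
  ext x y
  rw [Mt.star_apply, oW_apply, oW_apply, Mt.star_apply]
  by_cases h1 : x.1 = y.1
  · rw [if_pos h1, if_pos h1.symm]
  · rw [if_neg h1, if_neg (Ne.symm h1), star_zero]

/-- Multiplication by `1 ⊗ w` on the left. -/
theorem oW_mul_apply (w : Mt C B) (Z : Mt (S × C) B) (x y : S × C) :
    (oW w * Z : Mt (S × C) B) x y = ∑ c, w x.2 c * Z (x.1, c) y := by
  rw [Mt.mul_apply, Fintype.sum_prod_type, Finset.sum_eq_single x.1]
  · refine Finset.sum_congr rfl fun c _ => ?_
    rw [oW_apply, if_pos rfl]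
  · intro b _ hb
    refine Finset.sum_eq_zero fun c _ => ?_
    rw [oW_apply, if_neg (Ne.symm hb), zero_mul]
  · intro h
    exact absurd (Finset.mem_univ _) h

/-- Multiplication by `1 ⊗ w` on the right. -/
theorem mul_oW_apply (w : Mt C B) (Z : Mt (S × C) B) (x y : S × C) :
    (Z * oW w : Mt (S × C) B) x y = ∑ c, Z x (y.1, c) * w c y.2 := by
  rw [Mt.mul_apply, Fintype.sum_prod_type, Finset.sum_eq_single y.1]
  · refine Finset.sum_congr rfl fun c _ => ?_
    rw [oW_apply, if_pos rfl]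
  · intro b _ hb
    refine Finset.sum_eq_zero fun c _ => ?_
    rw [oW_apply, if_neg hb, mul_zero]
  · intro h
    exact absurd (Finset.mem_univ _) h

theorem oW_mul (w z : Mt C B) : (oW w : Mt (S × C) B) * oW z = oW (w * z) := by
  ext x y
  rw [oW_mul_apply, oW_apply]
  by_cases h1 : x.1 = y.1
  · rw [if_pos h1, Mt.mul_apply]
    refine Finset.sum_congr rfl fun c _ => ?_
    rw [oW_apply, if_pos h1]
  · rw [if_neg h1]
    refine Finset.sum_eq_zero fun c _ => ?_
    rw [oW_apply, if_neg h1, mul_zero]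

/-- `x ⊗ 1`. -/
noncomputable def xo (x : S → S → ℂ) : S × C → S × C → ℂ :=
  fun p q => if p.2 = q.2 then x p.1 q.1 else 0

theorem kapF_scal (K : B →⋆ₐ[ℂ] Mt C B) (x : S → S → ℂ) :
    kapF K (Mt.scal x) = Mt.scal (xo x) := by
  ext p q
  rw [kapF_apply, Mt.scal_apply, Mt.scal_apply, AlgHomClass.commutes, Mt.algebraMap_apply]
  unfold xo
  by_cases h : p.2 = q.2
  · rw [if_pos h, if_pos h]
  · rw [if_neg h, if_neg h, map_zero]

theorem scal_xo_comm (w : Mt C B) (x : S → S → ℂ) :
    (Mt.scal (xo x) : Mt (S × C) B) * oW w = oW w * Mt.scal (xo x) := by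
  ext p q
  rw [mul_oW_apply, oW_mul_apply, Finset.sum_eq_single p.2, Finset.sum_eq_single q.2]
  · rw [Mt.scal_apply, Mt.scal_apply]
    unfold xo
    rw [if_pos rfl, if_pos rfl]
    exact Algebra.commutes _ _
  · intro c _ hc
    rw [Mt.scal_apply]
    unfold xo
    rw [if_neg hc, map_zero, mul_zero]
  · intro h
    exact absurd (Finset.mem_univ _) h
  · intro c _ hc
    rw [Mt.scal_apply]
    unfold xo
    rw [if_neg (Ne.symm hc), map_zero, zero_mul]
  · intro h
    exact absurd (Finset.mem_univ _) h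

theorem blocks_scal (w : Mt C B) (X : S → S → C → C → ℂ) (p q : S × C) :
    (star (oW w) * Mt.scal (fun x y => X x.1 y.1 x.2 y.2) * oW w : Mt (S × C) B) p q =
      (star w * Mt.scal (X p.1 q.1) * w : Mt C B) p.2 q.2 := by
  rw [mul_oW_apply, Mt.mul_apply]
  refine Finset.sum_congr rfl fun c _ => ?_
  rw [oW_star, oW_mul_apply, Mt.mul_apply]
  rfl

/-- **CAR-SYS1.** -/
theorem h_sys1 : S_SYS1 := by
  classical
  intro B _ θ hst S _ _ v hv1 hv2 G ε hε
  set n : ℝ := (Fintype.card S : ℝ) with hn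
  have hn0 : 0 ≤ n := Nat.cast_nonneg _
  obtain ⟨a, C, fC, dC, c0, c1, K, w, hcard, hstep⟩ := hst
    (G.biUnion fun g => Finset.univ.image fun p : S × S => (v * g * star v) p.1 p.2)
    (ε / (n ^ 2 + 1)) (by positivity)
  obtain ⟨h1, h2, h3, h4, h5, h6, h7, h8⟩ := hstep
  refine ⟨a, C, fC, dC, c0, c1, K, w, oW w * kapH K v, hcard,
    ⟨h1, h2, h3, h4, h5, h6, h7, fun b hb => absurd hb (Finset.notMem_empty b)⟩, ?_, ?_, ?_, ?_⟩
  · rw [star_mul, mul_assoc, ← mul_assoc (star (oW w)), oW_star, oW_mul, h2, oW_one, one_mul,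
      ← map_star, ← map_mul, hv1, map_one]
  · rw [star_mul, mul_assoc, ← mul_assoc (kapH K v), ← map_star, ← map_mul, hv2, map_one, one_mul,
      oW_star, oW_mul, h3, oW_one]
  · intro x
    refine ⟨xo x, ?_⟩
    have e1 : kapF K (star v * Mt.scal x * v) =
        star (kapH K v) * Mt.scal (xo x) * kapH K v := by
      rw [← kapH_apply, map_mul, map_mul, map_star, kapH_apply K (Mt.scal x), kapF_scal]
    rw [e1, star_mul]
    have e2 : star (kapH K v) * star (oW w) * Mt.scal (xo x) * (oW w * kapH K v) =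
        star (kapH K v) * (star (oW w) * (Mt.scal (xo x) * oW w)) * kapH K v := by
      simp only [mul_assoc]
    rw [e2, scal_xo_comm, ← mul_assoc (star (oW w)), oW_star, oW_mul, h2, oW_one, one_mul]
  · intro g hg
    have hX : ∀ s t : S, ∃ x : C → C → ℂ,
        ‖K ((v * g * star v) s t) - star w * Mt.scal x * w‖ < ε / (n ^ 2 + 1) := by
      intro s t
      refine h8 _ ?_
      rw [Finset.mem_biUnion]
      exact ⟨g, hg, Finset.mem_image.2 ⟨(s, t), Finset.mem_univ _, rfl⟩⟩
    choose X hX using hX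
    refine ⟨fun x y => X x.1 y.1 x.2 y.2, ?_⟩
    have hU : kapH K v ∈ unitary (Mt (S × C) B) := by
      rw [Unitary.mem_iff, ← map_star, ← map_mul, ← map_mul, hv1, hv2, map_one]
      exact ⟨rfl, rfl⟩
    have e1 : kapF K g = star (kapH K v) * kapH K (v * g * star v) * kapH K v := by
      rw [← kapH_apply, ← map_star, ← map_mul, ← map_mul]
      congr 1
      have : star v * (v * g * star v) * v = (star v * v) * g * (star v * v) := by
        simp only [mul_assoc]
      rw [this, hv1, one_mul, mul_one]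
    have e2 : star (oW w * kapH K v) * Mt.scal (fun x y => X x.1 y.1 x.2 y.2) *
        (oW w * kapH K v) = star (kapH K v) *
          (star (oW w) * Mt.scal (fun x y => X x.1 y.1 x.2 y.2) * oW w) * kapH K v := by
      rw [star_mul]
      simp only [mul_assoc]
    rw [e1, e2, ← sub_mul, ← mul_sub]
    have e3 : ‖star (kapH K v) * (kapH K (v * g * star v) -
        star (oW w) * Mt.scal (fun x y => X x.1 y.1 x.2 y.2) * oW w) * kapH K v‖ =
        ‖kapH K (v * g * star v) -
          star (oW w) * Mt.scal (fun x y => X x.1 y.1 x.2 y.2) * oW w‖ := by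
      rw [CStarRing.norm_mul_coe_unitary _ (⟨kapH K v, hU⟩ : unitary (Mt (S × C) B))]
      exact CStarRing.norm_coe_unitary_mul
        (⟨star (kapH K v), Unitary.star_mem hU⟩ : unitary (Mt (S × C) B)) _
    rw [e3]
    have e4 := norm_blocks (kapH K (v * g * star v) -
        star (oW w) * Mt.scal (fun x y => X x.1 y.1 x.2 y.2) * oW w)
        (fun s t => K ((v * g * star v) s t) - star w * Mt.scal (X s t) * w) (fun x y => by
          rw [Mt.sub_apply, Mt.sub_apply, blocks_scal]
          rfl)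
    refine e4.trans_lt ?_
    have e5 : ∑ s : S, ∑ t : S, ‖K ((v * g * star v) s t) - star w * Mt.scal (X s t) * w‖ ≤
        ∑ _s : S, ∑ _t : S, ε / (n ^ 2 + 1) :=
      Finset.sum_le_sum fun s _ => Finset.sum_le_sum fun t _ => (hX s t).le
    refine e5.trans_lt ?_
    rw [Finset.sum_const, Finset.sum_const, Finset.card_univ, nsmul_eq_mul, nsmul_eq_mul, ← hn]
    have e6 : n * (n * (ε / (n ^ 2 + 1))) = ε * (n ^ 2 / (n ^ 2 + 1)) := by ring
    rw [e6]
    have e7 : n ^ 2 / (n ^ 2 + 1) < 1 := by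
      rw [div_lt_one (by positivity)]
      linarith
    calc ε * (n ^ 2 / (n ^ 2 + 1)) < ε * 1 := mul_lt_mul_of_pos_left e7 hε
      _ = ε := mul_one ε

end Pool.Agent.Helper19.CAR
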